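import Pool.Agent.V11292.PSumD

/-!
# Kernel computations: counts and sums of the rough numbers in one class modulo `210`
-/

set_option autoImplicit false

namespace Pool.Agent.V11292.PS

open Finset

theorem a1 : T 0 1 0 (K 1 N₁) = 3595002 :=
  partA 1 3595002 (by norm_num) (by decide +kernel)

theorem b1 : T 0 1 (K 1 N₁) (K 1 N₂) = 3848288 ∧
    T 1 1 (K 1 N₁) (K 1 N₂) = 13439875864226108 :=
  partB 1 3848288 13439875864226108 (by norm_num) (by decide +kernel)

end Pool.Agent.V11292.PS
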