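import Pool.Agent.V11292.PSumD

/-!
# Kernel computations: counts and sums of the rough numbers in one class modulo `210`
-/

set_option autoImplicit false

namespace Pool.Agent.V11292.PS

open Finset

theorem a11 : T 0 11 0 (K 11 N₁) = 3594657 :=
  partA 11 3594657 (by norm_num) (by decide +kernel)

theorem b11 : T 0 11 (K 11 N₁) (K 11 N₂) = 3848190 ∧
    T 1 11 (K 11 N₁) (K 11 N₂) = 13439226191495760 :=
  partB 11 3848190 13439226191495760 (by norm_num) (by decide +kernel)

end Pool.Agent.V11292.PS
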