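import Pool.Agent.V11292.PSumD

/-!
# Kernel computations: counts and sums of the rough numbers in one class modulo `210`
-/

set_option autoImplicit false

namespace Pool.Agent.V11292.PS

open Finset

theorem a13 : T 0 13 0 (K 13 N₁) = 3594792 :=
  partA 13 3594792 (by norm_num) (by decide +kernel)

theorem b13 : T 0 13 (K 13 N₁) (K 13 N₂) = 3847752 ∧
    T 1 13 (K 13 N₁) (K 13 N₂) = 13437821461157556 :=
  partB 13 3847752 13437821461157556 (by norm_num) (by decide +kernel)

end Pool.Agent.V11292.PS
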