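import Pool.Agent.V11292.PSumD

/-!
# Kernel computations: counts and sums of the rough numbers in one class modulo `210`
-/

set_option autoImplicit false

namespace Pool.Agent.V11292.PS

open Finset

theorem a17 : T 0 17 0 (K 17 N₁) = 3594824 :=
  partA 17 3594824 (by norm_num) (by decide +kernel)

theorem b17 : T 0 17 (K 17 N₁) (K 17 N₂) = 3847878 ∧
    T 1 17 (K 17 N₁) (K 17 N₂) = 13438478824225326 :=
  partB 17 3847878 13438478824225326 (by norm_num) (by decide +kernel)

end Pool.Agent.V11292.PS
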