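import Pool.Agent.V11292.PSumD

/-!
# Kernel computations: counts and sums of the rough numbers in one class modulo `210`
-/

set_option autoImplicit false

namespace Pool.Agent.V11292.PS

open Finset

theorem a19 : T 0 19 0 (K 19 N₁) = 3594940 :=
  partA 19 3594940 (by norm_num) (by decide +kernel)

theorem b19 : T 0 19 (K 19 N₁) (K 19 N₂) = 3848077 ∧
    T 1 19 (K 19 N₁) (K 19 N₂) = 13439236609374103 :=
  partB 19 3848077 13439236609374103 (by norm_num) (by decide +kernel)

end Pool.Agent.V11292.PS
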