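import Pool.Agent.V11292.PSumD

/-!
# Kernel computations: counts and sums of the rough numbers in one class modulo `210`
-/

set_option autoImplicit false

namespace Pool.Agent.V11292.PS

open Finset

theorem a23 : T 0 23 0 (K 23 N₁) = 3594995 :=
  partA 23 3594995 (by norm_num) (by decide +kernel)

theorem b23 : T 0 23 (K 23 N₁) (K 23 N₂) = 3847830 ∧
    T 1 23 (K 23 N₁) (K 23 N₂) = 13438549273169160 :=
  partB 23 3847830 13438549273169160 (by norm_num) (by decide +kernel)

end Pool.Agent.V11292.PS
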