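import Pool.Agent.V11292.PSumD

/-!
# Kernel computations: counts and sums of the rough numbers in one class modulo `210`
-/

set_option autoImplicit false

namespace Pool.Agent.V11292.PS

open Finset

theorem a29 : T 0 29 0 (K 29 N₁) = 3594865 :=
  partA 29 3594865 (by norm_num) (by decide +kernel)

theorem b29 : T 0 29 (K 29 N₁) (K 29 N₂) = 3848155 ∧
    T 1 29 (K 29 N₁) (K 29 N₂) = 13439696112595595 :=
  partB 29 3848155 13439696112595595 (by norm_num) (by decide +kernel)

end Pool.Agent.V11292.PS
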