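import Pool.Agent.V11292.PSumD

/-!
# Kernel computations: counts and sums of the rough numbers in one class modulo `210`
-/

set_option autoImplicit false

namespace Pool.Agent.V11292.PS

open Finset

theorem a31 : T 0 31 0 (K 31 N₁) = 3594776 :=
  partA 31 3594776 (by norm_num) (by decide +kernel)

theorem b31 : T 0 31 (K 31 N₁) (K 31 N₂) = 3847945 ∧
    T 1 31 (K 31 N₁) (K 31 N₂) = 13438454000545345 :=
  partB 31 3847945 13438454000545345 (by norm_num) (by decide +kernel)

end Pool.Agent.V11292.PS
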