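import Pool.Agent.V11292.PSumD

/-!
# Kernel computations: counts and sums of the rough numbers in one class modulo `210`
-/

set_option autoImplicit false

namespace Pool.Agent.V11292.PS

open Finset

theorem a37 : T 0 37 0 (K 37 N₁) = 3595001 :=
  partA 37 3595001 (by norm_num) (by decide +kernel)

theorem b37 : T 0 37 (K 37 N₁) (K 37 N₂) = 3847602 ∧
    T 1 37 (K 37 N₁) (K 37 N₂) = 13437751814545134 :=
  partB 37 3847602 13437751814545134 (by norm_num) (by decide +kernel)

end Pool.Agent.V11292.PS
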