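import Pool.Agent.V11292.PSumD

/-!
# Kernel computations: counts and sums of the rough numbers in one class modulo `210`
-/

set_option autoImplicit false

namespace Pool.Agent.V11292.PS

open Finset

theorem a41 : T 0 41 0 (K 41 N₁) = 3594660 :=
  partA 41 3594660 (by norm_num) (by decide +kernel)

theorem b41 : T 0 41 (K 41 N₁) (K 41 N₂) = 3848074 ∧
    T 1 41 (K 41 N₁) (K 41 N₂) = 13439195788225334 :=
  partB 41 3848074 13439195788225334 (by norm_num) (by decide +kernel)

end Pool.Agent.V11292.PS
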