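import Pool.Agent.V11292.PSumD

/-!
# Kernel computations: counts and sums of the rough numbers in one class modulo `210`
-/

set_option autoImplicit false

namespace Pool.Agent.V11292.PS

open Finset

theorem a43 : T 0 43 0 (K 43 N₁) = 3594544 :=
  partA 43 3594544 (by norm_num) (by decide +kernel)

theorem b43 : T 0 43 (K 43 N₁) (K 43 N₂) = 3848204 ∧
    T 1 43 (K 43 N₁) (K 43 N₂) = 13439546690447762 :=
  partB 43 3848204 13439546690447762 (by norm_num) (by decide +kernel)

end Pool.Agent.V11292.PS
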