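import Pool.Agent.V11292.PSumD

/-!
# Kernel computations: counts and sums of the rough numbers in one class modulo `210`
-/

set_option autoImplicit false

namespace Pool.Agent.V11292.PS

open Finset

theorem a47 : T 0 47 0 (K 47 N₁) = 3594776 :=
  partA 47 3594776 (by norm_num) (by decide +kernel)

theorem b47 : T 0 47 (K 47 N₁) (K 47 N₂) = 3848368 ∧
    T 1 47 (K 47 N₁) (K 47 N₂) = 13440043372252016 :=
  partB 47 3848368 13440043372252016 (by norm_num) (by decide +kernel)

end Pool.Agent.V11292.PS
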