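import Pool.Agent.V11292.PSumD

/-!
# Kernel computations: counts and sums of the rough numbers in one class modulo `210`
-/

set_option autoImplicit false

namespace Pool.Agent.V11292.PS

open Finset

theorem a59 : T 0 59 0 (K 59 N₁) = 3595370 :=
  partA 59 3595370 (by norm_num) (by decide +kernel)

theorem b59 : T 0 59 (K 59 N₁) (K 59 N₂) = 3847561 ∧
    T 1 59 (K 59 N₁) (K 59 N₂) = 13437838449137009 :=
  partB 59 3847561 13437838449137009 (by norm_num) (by decide +kernel)

end Pool.Agent.V11292.PS
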