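import Pool.Agent.V11292.PSumD

/-!
# Kernel computations: counts and sums of the rough numbers in one class modulo `210`
-/

set_option autoImplicit false

namespace Pool.Agent.V11292.PS

open Finset

theorem a61 : T 0 61 0 (K 61 N₁) = 3594825 :=
  partA 61 3594825 (by norm_num) (by decide +kernel)

theorem b61 : T 0 61 (K 61 N₁) (K 61 N₂) = 3847984 ∧
    T 1 61 (K 61 N₁) (K 61 N₂) = 13439034445534054 :=
  partB 61 3847984 13439034445534054 (by norm_num) (by decide +kernel)

end Pool.Agent.V11292.PS
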