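import Pool.Agent.V11292.PSumD

/-!
# Kernel computations: counts and sums of the rough numbers in one class modulo `210`
-/

set_option autoImplicit false

namespace Pool.Agent.V11292.PS

open Finset

theorem a67 : T 0 67 0 (K 67 N₁) = 3595097 :=
  partA 67 3595097 (by norm_num) (by decide +kernel)

theorem b67 : T 0 67 (K 67 N₁) (K 67 N₂) = 3848250 ∧
    T 1 67 (K 67 N₁) (K 67 N₂) = 13439871805280970 :=
  partB 67 3848250 13439871805280970 (by norm_num) (by decide +kernel)

end Pool.Agent.V11292.PS
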