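import Pool.Agent.V11292.PSumD

/-!
# Kernel computations: counts and sums of the rough numbers in one class modulo `210`
-/

set_option autoImplicit false

namespace Pool.Agent.V11292.PS

open Finset

theorem a71 : T 0 71 0 (K 71 N₁) = 3594994 :=
  partA 71 3594994 (by norm_num) (by decide +kernel)

theorem b71 : T 0 71 (K 71 N₁) (K 71 N₂) = 3847912 ∧
    T 1 71 (K 71 N₁) (K 71 N₂) = 13438736575104062 :=
  partB 71 3847912 13438736575104062 (by norm_num) (by decide +kernel)

end Pool.Agent.V11292.PS
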