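import Pool.Agent.V11292.PSumD

/-!
# Kernel computations: counts and sums of the rough numbers in one class modulo `210`
-/

set_option autoImplicit false

namespace Pool.Agent.V11292.PS

open Finset

theorem a73 : T 0 73 0 (K 73 N₁) = 3595144 :=
  partA 73 3595144 (by norm_num) (by decide +kernel)

theorem b73 : T 0 73 (K 73 N₁) (K 73 N₂) = 3847706 ∧
    T 1 73 (K 73 N₁) (K 73 N₂) = 13437735064908188 :=
  partB 73 3847706 13437735064908188 (by norm_num) (by decide +kernel)

end Pool.Agent.V11292.PS
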