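import Pool.Agent.V11292.PSumD

/-!
# Kernel computations: counts and sums of the rough numbers in one class modulo `210`
-/

set_option autoImplicit false

namespace Pool.Agent.V11292.PS

open Finset

theorem a79 : T 0 79 0 (K 79 N₁) = 3594824 :=
  partA 79 3594824 (by norm_num) (by decide +kernel)

theorem b79 : T 0 79 (K 79 N₁) (K 79 N₂) = 3847896 ∧
    T 1 79 (K 79 N₁) (K 79 N₂) = 13438760474856744 :=
  partB 79 3847896 13438760474856744 (by norm_num) (by decide +kernel)

end Pool.Agent.V11292.PS
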