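import Pool.Agent.V11292.PSumD

/-!
# Kernel computations: counts and sums of the rough numbers in one class modulo `210`
-/

set_option autoImplicit false

namespace Pool.Agent.V11292.PS

open Finset

theorem a83 : T 0 83 0 (K 83 N₁) = 3595005 :=
  partA 83 3595005 (by norm_num) (by decide +kernel)

theorem b83 : T 0 83 (K 83 N₁) (K 83 N₂) = 3848158 ∧
    T 1 83 (K 83 N₁) (K 83 N₂) = 13439573672152454 :=
  partB 83 3848158 13439573672152454 (by norm_num) (by decide +kernel)

end Pool.Agent.V11292.PS
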