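import Pool.Agent.V11292.PSumD

/-!
# Kernel computations: counts and sums of the rough numbers in one class modulo `210`
-/

set_option autoImplicit false

namespace Pool.Agent.V11292.PS

open Finset

theorem a89 : T 0 89 0 (K 89 N₁) = 3594817 :=
  partA 89 3594817 (by norm_num) (by decide +kernel)

theorem b89 : T 0 89 (K 89 N₁) (K 89 N₂) = 3847945 ∧
    T 1 89 (K 89 N₁) (K 89 N₂) = 13439027556959495 :=
  partB 89 3847945 13439027556959495 (by norm_num) (by decide +kernel)

end Pool.Agent.V11292.PS
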