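import Pool.Agent.V11292.PSumD

/-!
# Kernel computations: counts and sums of the rough numbers in one class modulo `210`
-/

set_option autoImplicit false

namespace Pool.Agent.V11292.PS

open Finset

theorem a97 : T 0 97 0 (K 97 N₁) = 3594651 :=
  partA 97 3594651 (by norm_num) (by decide +kernel)

theorem b97 : T 0 97 (K 97 N₁) (K 97 N₂) = 3848160 ∧
    T 1 97 (K 97 N₁) (K 97 N₂) = 13439329148120070 :=
  partB 97 3848160 13439329148120070 (by norm_num) (by decide +kernel)

end Pool.Agent.V11292.PS
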