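import Pool.Agent.V11292.PSumD

/-!
# Kernel computations: counts and sums of the rough numbers in one class modulo `210`
-/

set_option autoImplicit false

namespace Pool.Agent.V11292.PS

open Finset

theorem a101 : T 0 101 0 (K 101 N₁) = 3595107 :=
  partA 101 3595107 (by norm_num) (by decide +kernel)

theorem b101 : T 0 101 (K 101 N₁) (K 101 N₂) = 3848076 ∧
    T 1 101 (K 101 N₁) (K 101 N₂) = 13439311567486626 :=
  partB 101 3848076 13439311567486626 (by norm_num) (by decide +kernel)

end Pool.Agent.V11292.PS
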