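import Pool.Agent.V11292.PSumD

/-!
# Kernel computations: counts and sums of the rough numbers in one class modulo `210`
-/

set_option autoImplicit false

namespace Pool.Agent.V11292.PS

open Finset

theorem a103 : T 0 103 0 (K 103 N₁) = 3594998 :=
  partA 103 3594998 (by norm_num) (by decide +kernel)

theorem b103 : T 0 103 (K 103 N₁) (K 103 N₂) = 3848229 ∧
    T 1 103 (K 103 N₁) (K 103 N₂) = 13439945315972637 :=
  partB 103 3848229 13439945315972637 (by norm_num) (by decide +kernel)

end Pool.Agent.V11292.PS
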