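import Pool.Agent.V11292.PSumD

/-!
# Kernel computations: counts and sums of the rough numbers in one class modulo `210`
-/

set_option autoImplicit false

namespace Pool.Agent.V11292.PS

open Finset

theorem a107 : T 0 107 0 (K 107 N₁) = 3594827 :=
  partA 107 3594827 (by norm_num) (by decide +kernel)

theorem b107 : T 0 107 (K 107 N₁) (K 107 N₂) = 3848351 ∧
    T 1 107 (K 107 N₁) (K 107 N₂) = 13440090632389567 :=
  partB 107 3848351 13440090632389567 (by norm_num) (by decide +kernel)

end Pool.Agent.V11292.PS
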