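import Pool.Agent.V11292.PSumD

/-!
# Kernel computations: counts and sums of the rough numbers in one class modulo `210`
-/

set_option autoImplicit false

namespace Pool.Agent.V11292.PS

open Finset

theorem a109 : T 0 109 0 (K 109 N₁) = 3594981 :=
  partA 109 3594981 (by norm_num) (by decide +kernel)

theorem b109 : T 0 109 (K 109 N₁) (K 109 N₂) = 3847972 ∧
    T 1 109 (K 109 N₁) (K 109 N₂) = 13438828659392998 :=
  partB 109 3847972 13438828659392998 (by norm_num) (by decide +kernel)

end Pool.Agent.V11292.PS
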