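import Pool.Agent.V11292.PSumD

/-!
# Kernel computations: counts and sums of the rough numbers in one class modulo `210`
-/

set_option autoImplicit false

namespace Pool.Agent.V11292.PS

open Finset

theorem a113 : T 0 113 0 (K 113 N₁) = 3595033 :=
  partA 113 3595033 (by norm_num) (by decide +kernel)

theorem b113 : T 0 113 (K 113 N₁) (K 113 N₂) = 3847719 ∧
    T 1 113 (K 113 N₁) (K 113 N₂) = 13437979041591357 :=
  partB 113 3847719 13437979041591357 (by norm_num) (by decide +kernel)

end Pool.Agent.V11292.PS
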