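import Pool.Agent.V11292.PSumD

/-!
# Kernel computations: counts and sums of the rough numbers in one class modulo `210`
-/

set_option autoImplicit false

namespace Pool.Agent.V11292.PS

open Finset

theorem a121 : T 0 121 0 (K 121 N₁) = 3595201 :=
  partA 121 3595201 (by norm_num) (by decide +kernel)

theorem b121 : T 0 121 (K 121 N₁) (K 121 N₂) = 3848150 ∧
    T 1 121 (K 121 N₁) (K 121 N₂) = 13439414917426550 :=
  partB 121 3848150 13439414917426550 (by norm_num) (by decide +kernel)

end Pool.Agent.V11292.PS
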