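import Pool.Agent.V11292.PSumD

/-!
# Kernel computations: counts and sums of the rough numbers in one class modulo `210`
-/

set_option autoImplicit false

namespace Pool.Agent.V11292.PS

open Finset

theorem a127 : T 0 127 0 (K 127 N₁) = 3595055 :=
  partA 127 3595055 (by norm_num) (by decide +kernel)

theorem b127 : T 0 127 (K 127 N₁) (K 127 N₂) = 3847853 ∧
    T 1 127 (K 127 N₁) (K 127 N₂) = 13438434832854761 :=
  partB 127 3847853 13438434832854761 (by norm_num) (by decide +kernel)

end Pool.Agent.V11292.PS
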