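import Pool.Agent.V11292.PSumD

/-!
# Kernel computations: counts and sums of the rough numbers in one class modulo `210`
-/

set_option autoImplicit false

namespace Pool.Agent.V11292.PS

open Finset

theorem a131 : T 0 131 0 (K 131 N₁) = 3595378 :=
  partA 131 3595378 (by norm_num) (by decide +kernel)

theorem b131 : T 0 131 (K 131 N₁) (K 131 N₂) = 3847876 ∧
    T 1 131 (K 131 N₁) (K 131 N₂) = 13438720803597956 :=
  partB 131 3847876 13438720803597956 (by norm_num) (by decide +kernel)

end Pool.Agent.V11292.PS
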