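import Pool.Agent.V11292.PSumD

/-!
# Kernel computations: counts and sums of the rough numbers in one class modulo `210`
-/

set_option autoImplicit false

namespace Pool.Agent.V11292.PS

open Finset

theorem a137 : T 0 137 0 (K 137 N₁) = 3594570 :=
  partA 137 3594570 (by norm_num) (by decide +kernel)

theorem b137 : T 0 137 (K 137 N₁) (K 137 N₂) = 3848127 ∧
    T 1 137 (K 137 N₁) (K 137 N₂) = 13439389368258579 :=
  partB 137 3848127 13439389368258579 (by norm_num) (by decide +kernel)

end Pool.Agent.V11292.PS
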