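import Pool.Agent.V11292.PSumD

/-!
# Kernel computations: counts and sums of the rough numbers in one class modulo `210`
-/

set_option autoImplicit false

namespace Pool.Agent.V11292.PS

open Finset

theorem a139 : T 0 139 0 (K 139 N₁) = 3595037 :=
  partA 139 3595037 (by norm_num) (by decide +kernel)

theorem b139 : T 0 139 (K 139 N₁) (K 139 N₂) = 3848173 ∧
    T 1 139 (K 139 N₁) (K 139 N₂) = 13439425689587737 :=
  partB 139 3848173 13439425689587737 (by norm_num) (by decide +kernel)

end Pool.Agent.V11292.PS
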