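import Pool.Agent.V11292.PSumD

/-!
# Kernel computations: counts and sums of the rough numbers in one class modulo `210`
-/

set_option autoImplicit false

namespace Pool.Agent.V11292.PS

open Finset

theorem a143 : T 0 143 0 (K 143 N₁) = 3594515 :=
  partA 143 3594515 (by norm_num) (by decide +kernel)

theorem b143 : T 0 143 (K 143 N₁) (K 143 N₂) = 3848768 ∧
    T 1 143 (K 143 N₁) (K 143 N₂) = 13441626487343194 :=
  partB 143 3848768 13441626487343194 (by norm_num) (by decide +kernel)

end Pool.Agent.V11292.PS
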