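import Pool.Agent.V11292.PSumD

/-!
# Kernel computations: counts and sums of the rough numbers in one class modulo `210`
-/

set_option autoImplicit false

namespace Pool.Agent.V11292.PS

open Finset

theorem a149 : T 0 149 0 (K 149 N₁) = 3595110 :=
  partA 149 3595110 (by norm_num) (by decide +kernel)

theorem b149 : T 0 149 (K 149 N₁) (K 149 N₂) = 3848356 ∧
    T 1 149 (K 149 N₁) (K 149 N₂) = 13440091094025584 :=
  partB 149 3848356 13440091094025584 (by norm_num) (by decide +kernel)

end Pool.Agent.V11292.PS
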