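import Pool.Agent.V11292.PSumD

/-!
# Kernel computations: counts and sums of the rough numbers in one class modulo `210`
-/

set_option autoImplicit false

namespace Pool.Agent.V11292.PS

open Finset

theorem a151 : T 0 151 0 (K 151 N₁) = 3594996 :=
  partA 151 3594996 (by norm_num) (by decide +kernel)

theorem b151 : T 0 151 (K 151 N₁) (K 151 N₂) = 3847869 ∧
    T 1 151 (K 151 N₁) (K 151 N₂) = 13438740285854319 :=
  partB 151 3847869 13438740285854319 (by norm_num) (by decide +kernel)

end Pool.Agent.V11292.PS
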