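import Pool.Agent.V11292.PSumD

/-!
# Kernel computations: counts and sums of the rough numbers in one class modulo `210`
-/

set_option autoImplicit false

namespace Pool.Agent.V11292.PS

open Finset

theorem a157 : T 0 157 0 (K 157 N₁) = 3595031 :=
  partA 157 3595031 (by norm_num) (by decide +kernel)

theorem b157 : T 0 157 (K 157 N₁) (K 157 N₂) = 3848004 ∧
    T 1 157 (K 157 N₁) (K 157 N₂) = 13439416599983868 :=
  partB 157 3848004 13439416599983868 (by norm_num) (by decide +kernel)

end Pool.Agent.V11292.PS
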