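import Pool.Agent.V11292.PSumD

/-!
# Kernel computations: counts and sums of the rough numbers in one class modulo `210`
-/

set_option autoImplicit false

namespace Pool.Agent.V11292.PS

open Finset

theorem a163 : T 0 163 0 (K 163 N₁) = 3594999 :=
  partA 163 3594999 (by norm_num) (by decide +kernel)

theorem b163 : T 0 163 (K 163 N₁) (K 163 N₂) = 3848127 ∧
    T 1 163 (K 163 N₁) (K 163 N₂) = 13439713645031631 :=
  partB 163 3848127 13439713645031631 (by norm_num) (by decide +kernel)

end Pool.Agent.V11292.PS
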