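import Pool.Agent.V11292.PSumD

/-!
# Kernel computations: counts and sums of the rough numbers in one class modulo `210`
-/

set_option autoImplicit false

namespace Pool.Agent.V11292.PS

open Finset

theorem a167 : T 0 167 0 (K 167 N₁) = 3595320 :=
  partA 167 3595320 (by norm_num) (by decide +kernel)

theorem b167 : T 0 167 (K 167 N₁) (K 167 N₂) = 3847949 ∧
    T 1 167 (K 167 N₁) (K 167 N₂) = 13438659745866943 :=
  partB 167 3847949 13438659745866943 (by norm_num) (by decide +kernel)

end Pool.Agent.V11292.PS
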