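import Pool.Agent.V11292.PSumD

/-!
# Kernel computations: counts and sums of the rough numbers in one class modulo `210`
-/

set_option autoImplicit false

namespace Pool.Agent.V11292.PS

open Finset

theorem a169 : T 0 169 0 (K 169 N₁) = 3595213 :=
  partA 169 3595213 (by norm_num) (by decide +kernel)

theorem b169 : T 0 169 (K 169 N₁) (K 169 N₂) = 3848023 ∧
    T 1 169 (K 169 N₁) (K 169 N₂) = 13439111222115457 :=
  partB 169 3848023 13439111222115457 (by norm_num) (by decide +kernel)

end Pool.Agent.V11292.PS
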