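import Pool.Agent.V11292.PSumD

/-!
# Kernel computations: counts and sums of the rough numbers in one class modulo `210`
-/

set_option autoImplicit false

namespace Pool.Agent.V11292.PS

open Finset

theorem a173 : T 0 173 0 (K 173 N₁) = 3594916 :=
  partA 173 3594916 (by norm_num) (by decide +kernel)

theorem b173 : T 0 173 (K 173 N₁) (K 173 N₂) = 3848031 ∧
    T 1 173 (K 173 N₁) (K 173 N₂) = 13439161835541663 :=
  partB 173 3848031 13439161835541663 (by norm_num) (by decide +kernel)

end Pool.Agent.V11292.PS
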