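import Pool.Agent.V11292.PSumD

/-!
# Kernel computations: counts and sums of the rough numbers in one class modulo `210`
-/

set_option autoImplicit false

namespace Pool.Agent.V11292.PS

open Finset

theorem a179 : T 0 179 0 (K 179 N₁) = 3594945 :=
  partA 179 3594945 (by norm_num) (by decide +kernel)

theorem b179 : T 0 179 (K 179 N₁) (K 179 N₂) = 3848136 ∧
    T 1 179 (K 179 N₁) (K 179 N₂) = 13439281334252094 :=
  partB 179 3848136 13439281334252094 (by norm_num) (by decide +kernel)

end Pool.Agent.V11292.PS
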