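import Pool.Agent.V11292.PSumD

/-!
# Kernel computations: counts and sums of the rough numbers in one class modulo `210`
-/

set_option autoImplicit false

namespace Pool.Agent.V11292.PS

open Finset

theorem a181 : T 0 181 0 (K 181 N₁) = 3595052 :=
  partA 181 3595052 (by norm_num) (by decide +kernel)

theorem b181 : T 0 181 (K 181 N₁) (K 181 N₂) = 3848156 ∧
    T 1 181 (K 181 N₁) (K 181 N₂) = 13439853047605736 :=
  partB 181 3848156 13439853047605736 (by norm_num) (by decide +kernel)

end Pool.Agent.V11292.PS
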