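import Pool.Agent.V11292.PSumD

/-!
# Kernel computations: counts and sums of the rough numbers in one class modulo `210`
-/

set_option autoImplicit false

namespace Pool.Agent.V11292.PS

open Finset

theorem a187 : T 0 187 0 (K 187 N₁) = 3594788 :=
  partA 187 3594788 (by norm_num) (by decide +kernel)

theorem b187 : T 0 187 (K 187 N₁) (K 187 N₂) = 3848311 ∧
    T 1 187 (K 187 N₁) (K 187 N₂) = 13440151525861057 :=
  partB 187 3848311 13440151525861057 (by norm_num) (by decide +kernel)

end Pool.Agent.V11292.PS
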