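import Pool.Agent.V11292.PSumD

/-!
# Kernel computations: counts and sums of the rough numbers in one class modulo `210`
-/

set_option autoImplicit false

namespace Pool.Agent.V11292.PS

open Finset

theorem a191 : T 0 191 0 (K 191 N₁) = 3594694 :=
  partA 191 3594694 (by norm_num) (by decide +kernel)

theorem b191 : T 0 191 (K 191 N₁) (K 191 N₂) = 3848048 ∧
    T 1 191 (K 191 N₁) (K 191 N₂) = 13439254210349578 :=
  partB 191 3848048 13439254210349578 (by norm_num) (by decide +kernel)

end Pool.Agent.V11292.PS
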