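import Pool.Agent.V11292.PSumD

/-!
# Kernel computations: counts and sums of the rough numbers in one class modulo `210`
-/

set_option autoImplicit false

namespace Pool.Agent.V11292.PS

open Finset

theorem a193 : T 0 193 0 (K 193 N₁) = 3594820 :=
  partA 193 3594820 (by norm_num) (by decide +kernel)

theorem b193 : T 0 193 (K 193 N₁) (K 193 N₂) = 3848072 ∧
    T 1 193 (K 193 N₁) (K 193 N₂) = 13439019529804346 :=
  partB 193 3848072 13439019529804346 (by norm_num) (by decide +kernel)

end Pool.Agent.V11292.PS
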