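import Pool.Agent.V11292.PSumD

/-!
# Kernel computations: counts and sums of the rough numbers in one class modulo `210`
-/

set_option autoImplicit false

namespace Pool.Agent.V11292.PS

open Finset

theorem a197 : T 0 197 0 (K 197 N₁) = 3594950 :=
  partA 197 3594950 (by norm_num) (by decide +kernel)

theorem b197 : T 0 197 (K 197 N₁) (K 197 N₂) = 3848124 ∧
    T 1 197 (K 197 N₁) (K 197 N₂) = 13439602830618888 :=
  partB 197 3848124 13439602830618888 (by norm_num) (by decide +kernel)

end Pool.Agent.V11292.PS
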