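import Pool.Agent.V11292.PSumD

/-!
# Kernel computations: counts and sums of the rough numbers in one class modulo `210`
-/

set_option autoImplicit false

namespace Pool.Agent.V11292.PS

open Finset

theorem a199 : T 0 199 0 (K 199 N₁) = 3594909 :=
  partA 199 3594909 (by norm_num) (by decide +kernel)

theorem b199 : T 0 199 (K 199 N₁) (K 199 N₂) = 3848045 ∧
    T 1 199 (K 199 N₁) (K 199 N₂) = 13439081225851205 :=
  partB 199 3848045 13439081225851205 (by norm_num) (by decide +kernel)

end Pool.Agent.V11292.PS
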