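import Pool.Agent.V11292.PSumD

/-!
# Kernel computations: counts and sums of the rough numbers in one class modulo `210`
-/

set_option autoImplicit false

namespace Pool.Agent.V11292.PS

open Finset

theorem a209 : T 0 209 0 (K 209 N₁) = 3594589 :=
  partA 209 3594589 (by norm_num) (by decide +kernel)

theorem b209 : T 0 209 (K 209 N₁) (K 209 N₂) = 3847887 ∧
    T 1 209 (K 209 N₁) (K 209 N₂) = 13438583721931773 :=
  partB 209 3847887 13438583721931773 (by norm_num) (by decide +kernel)

end Pool.Agent.V11292.PS
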