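import Pool.Agent.V11292.PSumD

/-!
# Kernel computations: products of two primes
-/

set_option autoImplicit false

namespace Pool.Agent.V11292.PS

open Finset

theorem q1A3072 : ∑ i ∈ Ico 3072 4096, q 1 N₁ 23847 i = 6783244143851910 :=
  partQ1 N₁ 23847 10 3072 4096 6783244143851910 (by unfold N₁; norm_num) (by norm_num) (by norm_num)
    (by decide +kernel)

theorem q1B4096 : ∑ i ∈ Ico 4096 6144, q 1 N₂ 34320 i = 38683680492174227 :=
  partQ1 N₂ 34320 11 4096 6144 38683680492174227 (by unfold N₂; norm_num) (by norm_num) (by norm_num)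
    (by decide +kernel)

end Pool.Agent.V11292.PS
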