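import Pool.Agent.V11292.PSumD

/-!
# Kernel computations: products of two primes
-/

set_option autoImplicit false

namespace Pool.Agent.V11292.PS

open Finset

theorem q0A6144 : ∑ i ∈ Ico 6144 8192, q 0 N₁ 23847 i = 5595893 :=
  partQ0 N₁ 23847 11 6144 8192 5595893 (by unfold N₁; norm_num) (by norm_num) (by norm_num)
    (by decide +kernel)

theorem q0B8192 : ∑ i ∈ Ico 8192 12288, q 0 N₂ 34320 i = 15139012 :=
  partQ0 N₂ 34320 12 8192 12288 15139012 (by unfold N₂; norm_num) (by norm_num) (by norm_num)
    (by decide +kernel)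

end Pool.Agent.V11292.PS
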