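import Pool.Agent.V11292.PSumD

/-!
# Kernel computations: products of two primes
-/

set_option autoImplicit false

namespace Pool.Agent.V11292.PS

open Finset

theorem q1B512 : ∑ i ∈ Ico 512 1024, q 1 N₂ 34320 i = 19273117748942124 :=
  partQ1 N₂ 34320 9 512 1024 19273117748942124 (by unfold N₂; norm_num) (by norm_num) (by norm_num)
    (by decide +kernel)

theorem q1B32768 : ∑ i ∈ Ico 32768 34816, q 1 N₂ 34320 i = 365518772547505 :=
  partQ1 N₂ 34320 11 32768 34816 365518772547505 (by unfold N₂; norm_num) (by norm_num) (by norm_num)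
    (by decide +kernel)

end Pool.Agent.V11292.PS
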